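import Pool.Agent.Helper34.QD.Fi
import Pool.Agent.Results.MP_07c750_an.RandomConformalMetrics

/-!
# Quantum unique ergodicity in the mean, given the area and the eigenvalues

Setting (the one of `RandomConformalMetrics`): `(M, g)` is a closed surface with a continuous
metric, `φ` a random continuous function with a law `P` on `C(M)` which is quasi-invariant under
the translations by the multiples of the functions of a set `S` with dense linear span, and
`u φ 0, u φ 1, ...` is an arbitrary ordered orthonormal basis of eigenfunctions of the metric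
`exp φ · g`, with the eigenvalues `lam φ 0 ≤ lam φ 1 ≤ ...`. The deviation of the `j`-th
eigenfunction from equidistribution is `D_j (f) = ∫ f (u φ j)² dA_φ - mean of f`.

Let `J 0, ..., J (n - 1)` be sequences of indices of positive eigenvalues, at least one of which
tends to infinity, and let `f 0, ..., f (n - 1)` be continuous functions. Then the determinants
`det (D_(J p k) (f q))`, `p, q < n`, tend to zero in the mean, *given the area and the
eigenvalues* `lam φ (J 0 k), ..., lam φ (J (n - 1) k)`:

* for all Borel functions `g k : ℝ × ℝⁿ → [-1, 1]` (which may be arbitrarily irregular and may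
  depend on `k`) and all `χ` in `L¹ (P)`,
  `∫ χ · g k (area, eigenvalues) · det (D_(J p k) (f q)) dP → 0` as `k → ∞`;
* equivalently, the conditional expectations of `χ · det (D_(J p k) (f q))`, given the area and
  the `n` eigenvalues, tend to zero in `L¹ (P)`.

For `n = 1` this says that the value of the eigenvalue and that of the remainder in Weyl's law
(`4 π j - area · eigenvalue`) contain asymptotically no information, in the mean, on the deviation
of the eigenfunction from equidistribution; the case without conditions (`g k = 1`) is the theorem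
of `RandomConformalMetrics`. For `n = 2` the correlation form
`(f, h) ↦ E[χ D_j (f) D_l (h) | area, eigenvalues j and l]` of two eigenfunctions is asymptotically
symmetric.

Idea of the proof (compensated compactness). Let `H_0 = log (4 π / area)` and
`H_a = log (eigenvalue / index)`. The mean of `f` and the masses `∫ f u²` are the derivatives of
`- H_0` and of the `- H_a` in the direction `f`. So on the slices spanned by `n + 1` directions
(one of them is the function `1`) the determinant is the Jacobian of `(H_0, ..., H_n)`. For a
smooth function `G` of `n + 1` variables let `Ψ` be the primitive of `G` in the variable `0` which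
vanishes for `y_0 = y_1`. Then `G (H) dH_0 ∧ ... ∧ dH_n = dΨ(H) ∧ dH_1 ∧ ... ∧ dH_n`, whatever the
size of the derivatives of `G`, and `|Ψ (H)| ≤ |H_0 - H_1|` tends to zero by Weyl's law. The
integration by parts is done for Lipschitz functions (`Pool/Agent/Helper34/QD`).
-/

set_option autoImplicit false

open Set Filter Topology MeasureTheory
open Pool.Agent.Y262.QE
open Pool.Agent.Results.MP_07c750_an.RandomConformalMetrics (IsEigenbasis surf area)

noncomputable section

namespace Pool.Agent.Results.MP_07c750_an.DeterminantsGivenEigenvalues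

/-- the deviation from equidistribution of the function `v`, for the metric `exp φ · g` -/
def deviation {M : Type} [TopologicalSpace M] [MeasurableSpace M] (μ : Measure M) (φ : C(M, ℝ))
    (v : M → ℝ) (f : C(M, ℝ)) : ℝ :=
  ∫ x, f x * (v x) ^ 2 ∂(area μ φ) - (∫ x, f x ∂(area μ φ)) / (area μ φ).real univ

/-- the determinant of the deviations of the eigenfunctions `u (J 0), ..., u (J (n - 1))`, for the
test functions `f 0, ..., f (n - 1)` -/
def detDeviation {M : Type} [TopologicalSpace M] [MeasurableSpace M] (μ : Measure M)
    (u : C(M, ℝ) → ℕ → M → ℝ) {n : ℕ} (J : Fin n → ℕ) (f : Fin n → C(M, ℝ)) (φ : C(M, ℝ)) : ℝ :=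
  (Matrix.of fun p q => deviation μ φ (u φ (J p)) (f q)).det

/-- the area and the eigenvalues with the indices `J 0, ..., J (n - 1)` -/
def areaAndEigenvalues {M : Type} [TopologicalSpace M] [MeasurableSpace M] (μ : Measure M)
    (lam : C(M, ℝ) → ℕ → ℝ) {n : ℕ} (J : Fin n → ℕ) (φ : C(M, ℝ)) : ℝ × (Fin n → ℝ) :=
  ((area μ φ).real univ, fun p => lam φ (J p))

theorem result (M : Type) [MetricSpace M] [CompactSpace M] [MeasurableSpace M] [BorelSpace M]
    [Nonempty M] (μ : Measure M) (D : Data M) (hD : D.IsSurf μ)
    [MeasurableSpace C(M, ℝ)] [BorelSpace C(M, ℝ)] (P : Measure C(M, ℝ)) [IsProbabilityMeasure P]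
    (S : Set C(M, ℝ)) (hS : Dense (Submodule.span ℝ S : Set C(M, ℝ)))
    (hP : ∀ h ∈ S, ∀ t : ℝ, P.map (fun φ => φ + t • h) ≪ P)
    (u : C(M, ℝ) → ℕ → M → ℝ) (lam : C(M, ℝ) → ℕ → ℝ)
    (hu : ∀ φ : C(M, ℝ), IsEigenbasis (surf D φ) (area μ φ) (u φ) (lam φ))
    (n : ℕ) (J : Fin n → ℕ → ℕ) (hpos : ∀ p k φ, 0 < lam φ (J p k))
    (hJ : ∃ p, Tendsto (J p) atTop atTop) (f : Fin n → C(M, ℝ)) :
    -- the area, the eigenvalues and the determinants are measurable, the determinants are bounded
    (∀ k, Measurable (areaAndEigenvalues μ lam fun p => J p k) ∧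
      AEStronglyMeasurable (detDeviation μ u (fun p => J p k) f) P ∧
      ∃ K : ℝ, ∀ φ, |detDeviation μ u (fun p => J p k) f φ| ≤ K) ∧
    -- Borel functions of the area and of the eigenvalues
    (∀ g : ℕ → ℝ × (Fin n → ℝ) → ℝ, (∀ k, Measurable (g k)) → (∀ k y, |g k y| ≤ 1) →
      ∀ χ : C(M, ℝ) → ℝ, Integrable χ P →
        Tendsto (fun k => ∫ φ, χ φ * (g k (areaAndEigenvalues μ lam (fun p => J p k) φ) *
          detDeviation μ u (fun p => J p k) f φ) ∂P) atTop (𝓝 0)) ∧
    -- conditional expectations
    ∀ χ : C(M, ℝ) → ℝ, Integrable χ P →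
      Tendsto (fun k => ∫ φ, |(P[fun φ => χ φ * detDeviation μ u (fun p => J p k) f φ |
        MeasurableSpace.comap (areaAndEigenvalues μ lam fun p => J p k) inferInstance]) φ| ∂P)
        atTop (𝓝 0) :=
  Pool.Agent.Helper34.QD.fin M μ D hD P S hS hP u lam
    (fun φ => ⟨(hu φ).eig, (hu φ).mono, (hu φ).orth, (hu φ).total⟩) n J hpos hJ f

end Pool.Agent.Results.MP_07c750_an.DeterminantsGivenEigenvalues
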