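import Pool.Agent.Results.MP_07c750_an.RandomConformalMetrics
import Pool.Agent.Helper26K1.EM.Fin

/-!
# Equidistributed mixtures in every eigenspace after an infinitesimal conformal perturbation

Let `(M, g)` be a closed surface with an arbitrary continuous Riemannian metric (for instance a smooth
metric of negative curvature), and let `F` be a first countable topological vector space of
functions on `M`, mapped continuously onto a dense subspace of `C(M)` by `ι` (for instance
`C^∞(M)`). Let `N j → ∞` arbitrarily slowly. There are `φ j → 0` in `F` such that for every `j` the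
eigenspace of the `j`-th eigenvalue of the metric `exp (φ j) · g` contains an equidistributed
mixture: there are at most `N j + 1` normalised eigenfunctions `v j k` for this eigenvalue and weights
`p j k ≥ 0` of sum `1` such that the measures `∑ k, p j k (v j k)² dA` tend weakly to the uniform
measure. In particular along the indices `j` for which the `j`-th eigenvalue of `exp (φ j) · g` is
simple the measures `(u j)² dA` of the eigenfunctions themselves tend to the uniform measure.

Idea of the proof. In dimension two the Dirichlet integral is conformally invariant, and the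
eigenvalue `E_j` of `exp φ · g` satisfies Weyl's law `E_j ~ 4 π j / Area`, uniformly on compact sets
of `φ`. So the oscillation of `log E_j + log Area` on a finite-dimensional ball of radius `r` tends to
zero, and there is a point of the ball at which this function decreases in no direction with a speed
greater than a small number. At such a point the one-sided derivatives of `E_j` are given by the
extreme values of a quadratic form on the whole eigenspace, and by separation of convex sets there is
a mixture of eigenfunctions whose integrals against the finitely many directions are almost the mean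
values. The dimension of the ball tends to infinity and its radius to zero with `j`.
-/

set_option autoImplicit false

open Set Filter Topology MeasureTheory
open Pool.Agent.Y262.QE

noncomputable section

namespace Pool.Agent.Results.MP_07c750_an.EquidistributedMixtures

open Pool.Agent.Results.MP_07c750_an.RandomConformalMetrics (IsEigenbasis surf area)

theorem result (M : Type) [MetricSpace M] [CompactSpace M] [MeasurableSpace M] [BorelSpace M]
    [Nonempty M] (μ : Measure M) (D : Data M) (hD : D.IsSurf μ)
    (F : Type) [AddCommGroup F] [Module ℝ F] [TopologicalSpace F] [ContinuousAdd F]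
    [ContinuousSMul ℝ F] [FirstCountableTopology F]
    (ι : F →L[ℝ] C(M, ℝ)) (hι : DenseRange ι) (N : ℕ → ℕ) (hN : Tendsto N atTop atTop) :
    ∃ φ : ℕ → F, Tendsto φ atTop (𝓝 0) ∧
      (∀ j, (surf D (ι (φ j))).IsSurf (area μ (ι (φ j))) ∧ ∃ (u : ℕ → M → ℝ) (lam : ℕ → ℝ),
        IsEigenbasis (surf D (ι (φ j))) (area μ (ι (φ j))) u lam) ∧
      ∀ (u : ℕ → ℕ → M → ℝ) (lam : ℕ → ℕ → ℝ),
        (∀ j, IsEigenbasis (surf D (ι (φ j))) (area μ (ι (φ j))) (u j) (lam j)) →
        ∃ (v : ∀ j, Fin (N j + 1) → M → ℝ) (p : ∀ j, Fin (N j + 1) → ℝ),
          (∀ j k, (surf D (ι (φ j))).IsEig (area μ (ι (φ j))) (lam j j) (v j k) ∧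
            ∫ x, (v j k x) ^ 2 ∂(area μ (ι (φ j))) = 1 ∧ 0 ≤ p j k) ∧
          (∀ j, ∑ k, p j k = 1) ∧
          ∀ f : C(M, ℝ),
            Tendsto (fun j => ∑ k, p j k * ∫ x, f x * (v j k x) ^ 2 ∂(area μ (ι (φ j)))) atTop
              (𝓝 ((∫ x, f x ∂μ) / μ.real univ)) ∧
            Tendsto (fun j => ∫ x, f x * (u j j x) ^ 2 ∂(area μ (ι (φ j))))
              (atTop ⊓ 𝓟 {j | ∀ l, l ≠ j → lam j l ≠ lam j j})
              (𝓝 ((∫ x, f x ∂μ) / μ.real univ)) := by
  obtain ⟨φ, hφ, h⟩ := Pool.Agent.Helper26K1.EM.main M μ D hD F ι hι N hN
  refine ⟨φ, hφ, fun j => (RandomConformalMetrics.result M μ D hD).1 (ι (φ j)), ?_⟩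
  intro u lam hu
  exact h u lam fun j => ⟨(hu j).eig, (hu j).mono, (hu j).orth, (hu j).total⟩

end Pool.Agent.Results.MP_07c750_an.EquidistributedMixtures
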