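import Pool.Agent.Results.MP_07c750_an.StressEnergyInTheMean
import Pool.Agent.Helper34.QJ.InfM

/-!
# Equidistribution in the mean under infinitesimal random perturbations of a given metric

Let `g` be an arbitrary continuous Riemannian metric on a closed surface `M` (for instance a smooth
metric of negative curvature). Let `g φ` be a family of metrics with `g 0 = g`, where the parameter
`φ` is a random element of a topological vector space `E`, for instance `g φ = exp φ · g` with a
random function `φ`. The metric at `φ` is assumed to be differentiable in `φ` in the directions `h i`,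
`i ∈ ι`, and the distribution `P` of `φ` to be quasi-invariant under the translations by the
multiples of the `h i` (for instance `P` is a nondegenerate Gaussian measure and the `h i` are the
vectors of its Cameron-Martin space).

We consider the metrics `g (η j φ)`, where the size `η j` of the perturbation tends to zero as
`j → ∞`, and the `j`-th eigenfunction of this metric, from an arbitrary orthonormal basis of
eigenfunctions, ordered by the eigenvalue. The metrics converge to the given metric `g`.

**Theorem.** There are `ε j → 0` such that for all sequences `η j → 0` with `η j ≥ ε j` the `j`-th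
eigenfunctions of the metrics `g (η j φ)` satisfy quantum unique ergodicity in the mean over `φ`: for
every field `S` of symmetric endomorphisms in the span of the derivatives of the metric the random
variables `∫ (2 ⟨S ∇u, ∇u⟩ - tr S |∇u|²) dA / lam + ∫ tr S u² dA`, where `u` is the `j`-th
eigenfunction and `lam` the eigenvalue, tend to the mean value of `tr S` for the given metric `g`,
weakly in `L¹ (P)` as `j → ∞`. There is no exceptional sequence of indices, and the average may be
taken over every event. Along every fixed sequence of indices, for `P`-almost every `φ`, the only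
possible limit of these random variables is the mean value of `tr S`.

For conformal perturbations `exp φ · g` and `S = f / 2` the random variables are `∫ f u² dA`, the
masses of the function `f` for the eigenfunctions, and all continuous functions `f` are admitted if
the directions `h i` span a dense subspace of `C(M)`.

The result StressEnergyInTheMean and the starting result RandomConformalMetrics treat random metrics
at a fixed distance from each other; here the perturbation is infinitesimal and the given metric is
arbitrary.

Proof. By equicontinuity Weyl's law `lam φ j ~ 4 π j / Area` is uniform on compact sets of parameters;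
the `ε j` tend to zero so slowly that the error in the logarithm is `o (ε j)` for almost all `φ`. The
integral of the random variable over a segment of length `η j` in the direction `h i` is a difference
of logarithms of eigenvalues, and so equal to the difference of the logarithms of the area up to an
error `o (η j)`.
-/

set_option autoImplicit false

open Set Filter Topology MeasureTheory
open Pool.Agent.Y262.QE

noncomputable section

namespace Pool.Agent.Results.MP_07c750_an.InfinitesimalPerturbations

open Pool.Agent.Results.MP_07c750_an.StressEnergyInTheMean (Coframes surf IsEigenbasis trace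
  IsStress pairing meanTrace IsFamily IsDerivative strain IsTest)

/-- **Theorem.** The stress-energy tensors of the `j`-th eigenfunctions of random metrics which tend
to a given metric as `j → ∞` tend to the isotropic tensor in the mean. -/
theorem result (M E ι : Type) [MetricSpace M] [CompactSpace M] [MeasurableSpace M] [BorelSpace M]
    [Nonempty M] [AddCommGroup E] [Module ℝ E] [TopologicalSpace E] [IsTopologicalAddGroup E]
    [ContinuousSMul ℝ E] [SecondCountableTopology E] [MeasurableSpace E] [BorelSpace E]
    (D : Data M) (m : E → Measure M) (A : E → Coframes D) (hA : IsFamily D m A)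
    (h : ι → E) (A' : ι → E → Coframes D)
    (hA' : ∀ i, IsDerivative D A (fun t φ => φ + t • h i) (A' i))
    (P : Measure E) [IsProbabilityMeasure P]
    (hP : ∀ i, ∀ t : ℝ, P.map (fun φ => φ + t • h i) ≪ P) :
    ∃ ε : ℕ → ℝ, (∀ j, 0 < ε j) ∧ Tendsto ε atTop (𝓝 0) ∧
      ∀ η : ℕ → ℝ, (∀ j, ε j ≤ η j) → Tendsto η atTop (𝓝 0) →
      ∀ S : E → M → ℂ →L[ℝ] ℂ, IsTest D m A A' S →
        (∀ δ : ℝ, 0 < δ → ∀ᶠ φ in 𝓝 (0 : E), ∀ x, |trace (S φ x) - trace (S 0 x)| ≤ δ) →
      ∀ (u : E → ℕ → M → ℝ) (lam r : E → ℕ → ℝ),
        (∀ φ, IsEigenbasis (surf D (A φ)) (m φ) (u φ) (lam φ)) →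
        (∀ φ j, IsStress D (m φ) (A φ) (S φ) (lam φ j) (u φ j) (r φ j)) →
      (∃ J : ℕ, ∀ j, J ≤ j → AEStronglyMeasurable (fun φ => pairing (m (η j • φ)) (S (η j • φ))
        (lam (η j • φ) j) (u (η j • φ) j) (r (η j • φ) j)) P) ∧
      (∀ χ : E → ℝ, Integrable χ P →
        Tendsto (fun j => ∫ φ, χ φ * pairing (m (η j • φ)) (S (η j • φ))
          (lam (η j • φ) j) (u (η j • φ) j) (r (η j • φ) j) ∂P) atTop
          (𝓝 (meanTrace (m 0) (S 0) * ∫ φ, χ φ ∂P))) ∧
      ∀ J : ℕ → ℕ, Tendsto J atTop atTop → ∀ᵐ φ ∂P, ∀ L : ℝ,
        Tendsto (fun k => pairing (m (η (J k) • φ)) (S (η (J k) • φ)) (lam (η (J k) • φ) (J k))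
          (u (η (J k) • φ) (J k)) (r (η (J k) • φ) (J k))) atTop (𝓝 L) →
          L = meanTrace (m 0) (S 0) := by
  have hR : Helper34.QJ.Rm D m A := ⟨hA.surf, hA.near⟩
  choose K hKc hKb using fun i => (hA' i).speed
  have hV : ∀ i, Helper34.QJ.Ve D A (A' i) (Helper34.QJ.trs (h i)) (K i) := fun i =>
    ⟨(hA' i).flow, (hA' i).zero, (hA' i).add, (hA' i).cont, hKc i, hKb i, (hA' i).der⟩
  choose u₀ lam₀ hu₀ using fun φ => Helper34.QJ.basis_ex (hA.surf φ)
  obtain ⟨ε, h1, h2, h3⟩ := Helper34.QJ.scales hR hu₀ P
  refine ⟨ε, h1, h2, fun η hη1 hη2 S hS hS0 u lam r hu hr => ?_⟩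
  have hu' : ∀ φ, Pool.Agent.Y264.QR.EigBasis (Helper34.QJ.chg D (A φ)) (m φ) (u φ) (lam φ) :=
    fun φ => ⟨(hu φ).eig, (hu φ).mono, (hu φ).orth, (hu φ).total⟩
  have hlam : lam₀ = lam := by
    funext φ j
    have hle : ∀ (v v' : ℕ → M → ℝ) (l l' : ℕ → ℝ),
        Pool.Agent.Y264.QR.EigBasis (Helper34.QJ.chg D (A φ)) (m φ) v l →
        Pool.Agent.Y264.QR.EigBasis (Helper34.QJ.chg D (A φ)) (m φ) v' l' → l' j ≤ l j := by
      intro v v' l l' hl hl'
      have := Helper34.QJ.cmp (hA.surf φ) (hA.surf φ) le_rfl (fun i z hz v => by rw [one_mul])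
        (fun i z hz v => by rw [one_mul]) hl hl' j
      rwa [one_pow, one_mul] at this
    exact le_antisymm (hle _ _ _ _ (hu' φ) (hu₀ φ)) (hle _ _ _ _ (hu₀ φ) (hu' φ))
  obtain ⟨C, hC⟩ := hS.bdd
  have hT : Helper34.QJ.Tf D m A A' S C := ⟨fun o => ⟨hS.meas o, hC o⟩, hS.app⟩
  have hst : ∀ o lam u r, IsStress D (m o) (A o) (S o) lam u r →
      Helper34.QJ.St D (m o) (A o) (S o) lam u r := by
    rintro o lam u r ⟨F, h1, h2, h3, h4, h5⟩
    exact ⟨F, ⟨h1, h2, h3, h4⟩, h5⟩
  have hη3 : ∀ᶠ j in atTop, η j ≤ 1 :=
    (hη2.eventually (gt_mem_nhds one_pos)).mono fun j hj => hj.le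
  exact Helper34.QJ.infm hR hV hT hS0 P hP hu' (fun o j => hst o _ _ _ (hr o j))
    (fun j => (h1 j).trans_le (hη1 j)) hη2 (by
      filter_upwards [h3] with φ hφ
      rw [← hlam]
      exact hφ η (Eventually.of_forall hη1) hη3)

end Pool.Agent.Results.MP_07c750_an.InfinitesimalPerturbations
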