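import Pool.Agent.Helper34.QJ.Many

/-!
# The stress-energy tensor of the eigenfunctions of random metrics, in the mean

Let `g o` be continuous Riemannian metrics on a closed surface `M`, which depend continuously on a
parameter `o` in a space `Ω` with a Borel probability measure `P`. Let `u o 0, u o 1, ...` be an
orthonormal basis of `L²` which consists of eigenfunctions of the Laplacian of `g o`, ordered by the
eigenvalue `lam o j`; the choice of the bases is arbitrary. The stress-energy tensor of the
eigenfunction `u = u o j` with the eigenvalue `lam = lam o j` is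
`T = (2 ∇u ⊗ ∇u - |∇u|² g) / lam + u² g`. Quantum unique ergodicity in the phase space predicts that
`T dA` tends to `g dA / Area` as `j → ∞`: both the mass of the eigenfunctions and the directions of
their gradients become equidistributed. For a field `S` of symmetric endomorphisms this is
`∫ (2 ⟨S ∇u, ∇u⟩ - tr S |∇u|²) dA / lam + ∫ tr S u² dA → ∫ tr S dA / Area`.
If `S = f / 2` the left side is `∫ f u² dA`; if `tr S = 0` it is `2 ∫ ⟨S ∇u, ∇u⟩ dA / lam`.

Let `θ i`, `i ∈ ι`, be flows on `Ω` for which `P` is quasi-invariant, and such that the metric is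
differentiable along the orbits. The strain of the flow `θ i` is the field `A' A⁻¹` of endomorphisms,
where `A` is an orthonormal coframe and `A'` its derivative: the derivative of the metric is
`2 ⟨A' A⁻¹ v, v⟩`. The metrics are varied in arbitrary directions; the derivatives need neither be
conformal nor preserve the area.

**Theorem.** Let `S o` be fields of endomorphisms whose quadratic forms are limits of linear
combinations of the quadratic forms of the strains of the flows, locally uniformly in the parameter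
and uniformly on the surface. (If the derivatives of the metric along the flows span a dense set of
symmetric tensors, for instance if the metric is a submersive function of a nondegenerate Gaussian
random variable and the flows are the translations by the vectors of its Cameron-Martin space, then
all continuous fields are admitted.) The random variables `⟨T, S⟩` tend to the mean value of `tr S`
as `j → ∞`, weakly in `L¹ (P)`: there is no exceptional sequence of eigenvalues, and the average over
every event (for instance the event that the metric has negative curvature) may be taken. Along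
every fixed sequence of indices, for `P`-almost every metric, the only possible limit of these random
variables is the mean value of `tr S`.

Proof. By Hadamard's variation formula `⟨T, S⟩` is minus the logarithmic derivative of the `j`-th
eigenvalue along the flow, if `S` is the strain and the eigenvalue is differentiable; this holds almost
everywhere on the orbits, for every choice of the basis. By Weyl's law for continuous metrics the
logarithms of `lam o j / j` tend to `log (4 π / Area)`, and so do the integrals of their derivatives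
over all segments of the orbits.
-/

set_option autoImplicit false

open Set Filter Topology MeasureTheory
open Pool.Agent.Y262.QE

noncomputable section

namespace Pool.Agent.Results.MP_07c750_an.StressEnergyInTheMean

/-- orthonormal coframes in the charts of the surface `D` -/
abbrev Coframes {M : Type} (D : Data M) : Type := Fin D.N → ℂ → ℂ →L[ℝ] ℂ

/-- the surface `D` with the metric for which the coframes `A` are orthonormal -/
def surf {M : Type} (D : Data M) (A : Coframes D) : Data M where
  N := D.N
  U := D.U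
  φ := D.φ
  ψ := D.ψ
  A := A

/-- `u 0, u 1, ...` is an orthonormal basis of `L² (μ)` which consists of eigenfunctions of the
Laplacian of the surface `D` with the area `μ`; the eigenvalues `lam 0 ≤ lam 1 ≤ ...` are ordered -/
structure IsEigenbasis {M : Type} [MeasurableSpace M] (D : Data M) (μ : Measure M)
    (u : ℕ → M → ℝ) (lam : ℕ → ℝ) : Prop where
  eig : ∀ j, D.IsEig μ (lam j) (u j)
  mono : Monotone lam
  orth : ∀ i j, ∫ x, u i x * u j x ∂μ = if i = j then 1 else 0
  total : ∀ f : M → ℝ, MemLp f 2 μ → (∀ j, ∫ x, f x * u j x ∂μ = 0) → f =ᵐ[μ] 0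

/-- the trace of an endomorphism of the plane -/
def trace (S : ℂ →L[ℝ] ℂ) : ℝ := (S 1).re + (S Complex.I).im

/-- `r` is the integral of `2 ⟨S ∇u, ∇u⟩ - tr S |∇u|²` for the eigenfunction `u`: the limit of the
same integrals for `C¹` functions `F k` which tend to `u` together with their gradients, as in the
definition `Data.IsEig` of the eigenfunctions. The endomorphism `S x` and the gradients are written
in the orthonormal frame of the first chart which contains `x`. -/
def IsStress {M : Type} [MeasurableSpace M] (D : Data M) (ν : Measure M) (A : Coframes D)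
    (S : M → ℂ →L[ℝ] ℂ) (lam : ℝ) (u : M → ℝ) (r : ℝ) : Prop :=
  ∃ F : ℕ → M → ℝ, (∀ k, D.C1 (F k)) ∧
    Tendsto (fun k => ∫ x, (F k x - u x) ^ 2 ∂ν) atTop (𝓝 0) ∧
    Tendsto (fun p : ℕ × ℕ => ∫ x, ‖(surf D A).gr (F p.1) x - (surf D A).gr (F p.2) x‖ ^ 2 ∂ν)
      atTop (𝓝 0) ∧
    (∀ G : M → ℝ, D.C1 G →
      Tendsto (fun k => ∫ x, inner ℝ ((surf D A).gr (F k) x) ((surf D A).gr G x) ∂ν) atTop
        (𝓝 (lam * ∫ x, u x * G x ∂ν))) ∧
    Tendsto (fun k => ∫ x, (2 * inner ℝ (S x ((surf D A).gr (F k) x)) ((surf D A).gr (F k) x) -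
      trace (S x) * ‖(surf D A).gr (F k) x‖ ^ 2) ∂ν) atTop (𝓝 r)

/-- the integral of `⟨T, S⟩` for the stress-energy tensor `T` of the eigenfunction `u` with the
eigenvalue `lam`, where `r` is the integral of `2 ⟨S ∇u, ∇u⟩ - tr S |∇u|²` -/
def pairing {M : Type} [MeasurableSpace M] (ν : Measure M) (S : M → ℂ →L[ℝ] ℂ) (lam : ℝ)
    (u : M → ℝ) (r : ℝ) : ℝ :=
  r / lam + ∫ x, trace (S x) * (u x) ^ 2 ∂ν

/-- the mean value of the trace -/
def meanTrace {M : Type} [MeasurableSpace M] (ν : Measure M) (S : M → ℂ →L[ℝ] ℂ) : ℝ :=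
  (∫ x, trace (S x) ∂ν) / ν.real univ

/-- continuous families of metrics: the metric at `o` has the orthonormal coframes `A o` and the
area `m o`; metrics at nearby parameters are almost isometric, uniformly on the surface -/
structure IsFamily {M Ω : Type} [TopologicalSpace M] [MeasurableSpace M] [TopologicalSpace Ω]
    (D : Data M) (m : Ω → Measure M) (A : Ω → Coframes D) : Prop where
  surf : ∀ o, (surf D (A o)).IsSurf (m o)
  near : ∀ o ε, 0 < ε → ∀ᶠ o' in 𝓝 o, ∀ i, ∀ z ∈ D.T i, ∀ v,
    ‖A o' i z v‖ ≤ (1 + ε) * ‖A o i z v‖ ∧ ‖A o i z v‖ ≤ (1 + ε) * ‖A o' i z v‖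

/-- `θ` is a flow on `Ω`, and `A'` is the derivative of the coframes `A` along the flow, uniformly
on the surface; the speed is locally bounded -/
structure IsDerivative {M Ω : Type} [TopologicalSpace Ω] (D : Data M) (A : Ω → Coframes D)
    (θ : ℝ → Ω → Ω) (A' : Ω → Coframes D) : Prop where
  flow : Continuous fun p : ℝ × Ω => θ p.1 p.2
  zero : ∀ o, θ 0 o = o
  add : ∀ s t o, θ (s + t) o = θ s (θ t o)
  cont : ∀ o i, ContinuousOn (A' o i) (D.T i)
  speed : ∃ K : Ω → ℝ, Continuous K ∧ ∀ o i, ∀ z ∈ D.T i, ∀ v, ‖A' o i z v‖ ≤ K o * ‖A o i z v‖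
  der : ∀ o (ε : ℝ), 0 < ε → ∃ δ : ℝ, 0 < δ ∧ ∀ τ : ℝ, |τ| < δ → ∀ i, ∀ z ∈ D.T i, ∀ v,
    ‖A (θ τ o) i z v - A o i z v - τ • A' o i z v‖ ≤ ε * |τ| * ‖A o i z v‖

/-- the strain `A' A⁻¹` at the points of the surface, in the orthonormal frame of the first chart -/
def strain {M : Type} (D : Data M) (A A' : Coframes D) (x : M) : ℂ →L[ℝ] ℂ :=
  ∑ i, (D.pc i).indicator (fun x => (A' i (D.φ i x)).comp (A i (D.φ i x)).inverse) x

/-- bounded measurable fields of endomorphisms, whose quadratic forms are limits of linear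
combinations of the quadratic forms of the strains, locally uniformly in the parameter and uniformly
on the surface -/
structure IsTest {M Ω ι : Type} [TopologicalSpace Ω] [MeasurableSpace M] (D : Data M)
    (m : Ω → Measure M) (A : Ω → Coframes D) (A' : ι → Ω → Coframes D)
    (S : Ω → M → ℂ →L[ℝ] ℂ) : Prop where
  meas : ∀ o, AEStronglyMeasurable (S o) (m o)
  bdd : ∃ C : ℝ, ∀ o x v, ‖S o x v‖ ≤ C * ‖v‖
  app : ∀ ε : ℝ, 0 < ε → ∀ o, ∃ (s : Finset ι) (c : ι → ℝ), ∀ᶠ o' in 𝓝 o, ∀ x v,
    |inner ℝ (S o' x v) v - ∑ i ∈ s, c i * inner ℝ (strain D (A o') (A' i o') x v) v| ≤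
      ε * ‖v‖ ^ 2

/-- **Theorem.** The stress-energy tensors of the eigenfunctions of random metrics tend to the
isotropic tensor in the mean. -/
theorem result (M Ω ι : Type) [MetricSpace M] [CompactSpace M] [MeasurableSpace M] [BorelSpace M]
    [Nonempty M] [TopologicalSpace Ω] [SecondCountableTopology Ω] [MeasurableSpace Ω]
    [BorelSpace Ω] (D : Data M) (m : Ω → Measure M) (A : Ω → Coframes D) (hA : IsFamily D m A)
    (θ : ι → ℝ → Ω → Ω) (A' : ι → Ω → Coframes D) (hθ : ∀ i, IsDerivative D A (θ i) (A' i))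
    (S : Ω → M → ℂ →L[ℝ] ℂ) (hS : IsTest D m A A' S) :
    (∀ o, (∃ u lam, IsEigenbasis (surf D (A o)) (m o) u lam) ∧
      ∀ u lam, (surf D (A o)).IsEig (m o) lam u → ∃! r, IsStress D (m o) (A o) (S o) lam u r) ∧
    ∀ (P : Measure Ω) [IsProbabilityMeasure P], (∀ i t, P.map (θ i t) ≪ P) →
    ∀ (u : Ω → ℕ → M → ℝ) (lam r : Ω → ℕ → ℝ),
      (∀ o, IsEigenbasis (surf D (A o)) (m o) (u o) (lam o)) →
      (∀ o j, IsStress D (m o) (A o) (S o) (lam o j) (u o j) (r o j)) →
    (∃ J : ℕ, ∀ j, J ≤ j → AEStronglyMeasurable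
      (fun o => pairing (m o) (S o) (lam o j) (u o j) (r o j)) P) ∧
    (∀ χ : Ω → ℝ, Integrable χ P →
      Tendsto (fun j => ∫ o, χ o * pairing (m o) (S o) (lam o j) (u o j) (r o j) ∂P)
        atTop (𝓝 (∫ o, χ o * meanTrace (m o) (S o) ∂P))) ∧
    ∀ J : ℕ → ℕ, Tendsto J atTop atTop → ∀ᵐ o ∂P, ∀ L : ℝ,
      Tendsto (fun k => pairing (m o) (S o) (lam o (J k)) (u o (J k)) (r o (J k))) atTop
        (𝓝 L) → L = meanTrace (m o) (S o) := by
  have hR : Helper34.QJ.Rm D m A := ⟨hA.surf, hA.near⟩
  choose K hKc hKb using fun i => (hθ i).speed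
  have hV : ∀ i, Helper34.QJ.Ve D A (A' i) (θ i) (K i) := fun i =>
    ⟨(hθ i).flow, (hθ i).zero, (hθ i).add, (hθ i).cont, hKc i, hKb i, (hθ i).der⟩
  obtain ⟨C, hC⟩ := hS.bdd
  have hT : Helper34.QJ.Tf D m A A' S C := ⟨fun o => ⟨hS.meas o, hC o⟩, hS.app⟩
  have hst : ∀ o lam u r, IsStress D (m o) (A o) (S o) lam u r ↔
      Helper34.QJ.St D (m o) (A o) (S o) lam u r := by
    intro o lam u r
    constructor
    · rintro ⟨F, h1, h2, h3, h4, h5⟩
      exact ⟨F, ⟨h1, h2, h3, h4⟩, h5⟩
    · rintro ⟨F, ⟨h1, h2, h3, h4⟩, h5⟩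
      exact ⟨F, h1, h2, h3, h4, h5⟩
  refine ⟨fun o => ⟨?_, fun u lam hu => ?_⟩, ?_⟩
  · obtain ⟨u, lam, hu⟩ := Helper34.QJ.basis_ex (hA.surf o)
    exact ⟨u, lam, hu.eig, hu.mono, hu.orth, hu.total⟩
  · simpa only [hst] using Helper34.QJ.st_ex (hA.surf o) hu (hT.bf o)
  · intro P _ hP u lam r hu hr
    exact Helper34.QJ.many hR hV hT P hP
      (fun o => ⟨(hu o).eig, (hu o).mono, (hu o).orth, (hu o).total⟩)
      (fun o j => (hst o _ _ _).1 (hr o j))

end Pool.Agent.Results.MP_07c750_an.StressEnergyInTheMean
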